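import Pool.Agent.H970.RN.Defs

/-! # Level zero of the renormalisation, `N` components (RN970-1) -/

set_option autoImplicit false

noncomputable section

namespace Pool.Agent.H996.RN

open MvPolynomial Pool.Agent.H5R2.ON Pool.Agent.H717R2.ON3 Pool.Agent.H983R2.ONJ
open Pool.Agent.Y13.QM Pool.Agent.H970.RG Pool.Agent.H970.RN

/-! ## Derivations -/

theorem dn_sum {σ α : Type} (s : Finset α)
    (d : α → Derivation ℝ (MvPolynomial σ ℝ) (MvPolynomial σ ℝ)) (F : MvPolynomial σ ℝ) :
    (∑ a ∈ s, d a) F = ∑ a ∈ s, d a F := by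
  classical
  induction s using Finset.induction_on with
  | empty => simp
  | insert a s ha ih =>
    rw [Finset.sum_insert ha, Finset.sum_insert ha, Derivation.add_apply, ih]

theorem dN_X {N : ℕ} {V : Type} [DecidableEq V] (x : V) (i j : Fin N) (y : V) (k : Fin N) :
    DN x i j (X (y, k) : AlgN N V) = if y = x then
      ((if k = j then X (x, i) else 0) - (if k = i then X (x, j) else 0)) else 0 := by
  unfold DN
  rw [mkDerivation_X]

theorem rR_apply {N : ℕ} {V : Type} [Fintype V] [DecidableEq V] (b : V → ℝ) (i j : Fin N)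
    (F : AlgN N V) : RR b i j F = ∑ x, b x • DN x i j F := by
  unfold RR
  rw [dn_sum]
  rfl

theorem rR_X {N : ℕ} {V : Type} [Fintype V] [DecidableEq V] (b : V → ℝ) (i j : Fin N)
    (y : V) (k : Fin N) :
    RR b i j (X (y, k) : AlgN N V) =
      b y • ((if k = j then X (y, i) else 0) - (if k = i then X (y, j) else 0)) := by
  rw [rR_apply, Finset.sum_eq_single y]
  · rw [dN_X, if_pos rfl]
  · intro x _ hx
    rw [dN_X, if_neg (Ne.symm hx), smul_zero]
  · intro h
    exact absurd (Finset.mem_univ y) h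

theorem rR_loc {N : ℕ} {V : Type} [Fintype V] [DecidableEq V] {A : Set V} {F : AlgN N V}
    (hF : LocN A F) {b : V → ℝ} (h : ∀ x ∈ A, b x = 0) (i j : Fin N) : RR b i j F = 0 := by
  rw [rR_apply]
  refine Finset.sum_eq_zero fun x _ => ?_
  by_cases hx : x ∈ A
  · rw [h x hx, zero_smul]
  · rw [hF x hx i j, smul_zero]

/-! ## The scores -/

theorem scN_apply {N : ℕ} {V ι : Type} [Fintype ι] (G : Gr V ι) (β : ℝ) (b : V → ℝ)
    (i j : Fin N) : ScN G β b i j = ∑ e, (β * grad G b e) • curN G e i j := by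
  unfold ScN
  rw [Matrix.sum_apply]
  rfl

theorem curN_anti {N : ℕ} {V ι : Type} (G : Gr V ι) (e : ι) (i j : Fin N) :
    curN G e i j = -curN G e j i := by
  unfold curN
  ring

theorem scN_anti {N : ℕ} {V ι : Type} [Fintype ι] (G : Gr V ι) (β : ℝ) (b : V → ℝ)
    (i j : Fin N) : ScN G β b i j = -ScN G β b j i := by
  rw [scN_apply, scN_apply, ← Finset.sum_neg_distrib]
  refine Finset.sum_congr rfl fun e _ => ?_
  rw [curN_anti, smul_neg]

theorem grad_single {V ι : Type} [Fintype V] [DecidableEq V] (G : Gr V ι) (f : V → ℝ) (e : ι) :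
    ∑ y, f y * grad G (Pi.single y 1) e = grad G f e := by
  unfold grad
  have h : ∀ w : V, ∑ y, f y * (Pi.single y (1 : ℝ) : V → ℝ) w = f w := by
    intro w
    simp only [Pi.single_apply, mul_ite, mul_one, mul_zero]
    rw [Finset.sum_ite_eq]
    simp
  simp only [mul_sub]
  rw [Finset.sum_sub_distrib, h, h]

theorem jM_S1N {N : ℕ} {V ι : Type} [Fintype V] [DecidableEq V] [Fintype ι] (G : Gr V ι)
    (β : ℝ) (f : V → ℝ) : JM (fun y => (S1N G β y : MatN N V)) f = ScN G β f := by
  unfold JM S1N ScN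
  simp only [Finset.smul_sum, smul_smul]
  rw [Finset.sum_comm]
  refine Finset.sum_congr rfl fun e _ => ?_
  rw [← Finset.sum_smul]
  congr 1
  rw [← grad_single G f e, Finset.mul_sum]
  refine Finset.sum_congr rfl fun y _ => ?_
  ring

/-! ## Covariance -/

theorem mul_EM {N : ℕ} {V : Type} (T : MatN N V) (a b i j : Fin N) :
    (T * EM a b - EM a b * T : MatN N V) i j =
      ((if j = b then T i a else 0) - (if j = a then T i b else 0)) -
      ((if i = a then T b j else 0) - (if i = b then T a j else 0)) := by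
  rw [Matrix.sub_apply]
  congr 1
  · rw [Matrix.mul_apply]
    unfold EM
    simp only [Matrix.sub_apply, Matrix.single_apply, mul_sub, mul_ite, mul_one, mul_zero]
    rw [Finset.sum_sub_distrib]
    congr 1
    · by_cases h : j = b
      · subst h
        simp
      · rw [if_neg h]
        refine Finset.sum_eq_zero fun k _ => ?_
        rw [if_neg]
        exact fun hh => h hh.2.symm
    · by_cases h : j = a
      · subst h
        simp
      · rw [if_neg h]
        refine Finset.sum_eq_zero fun k _ => ?_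
        rw [if_neg]
        exact fun hh => h hh.2.symm
  · rw [Matrix.mul_apply]
    unfold EM
    simp only [Matrix.sub_apply, Matrix.single_apply, sub_mul, ite_mul, one_mul, zero_mul]
    rw [Finset.sum_sub_distrib]
    congr 1
    · by_cases h : i = a
      · subst h
        simp
      · rw [if_neg h]
        refine Finset.sum_eq_zero fun k _ => ?_
        rw [if_neg]
        exact fun hh => h hh.1.symm
    · by_cases h : i = b
      · subst h
        simp
      · rw [if_neg h]
        refine Finset.sum_eq_zero fun k _ => ?_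
        rw [if_neg]
        exact fun hh => h hh.1.symm

theorem covM_curN {N : ℕ} {V ι : Type} [Fintype V] [DecidableEq V] (G : Gr V ι) (e : ι) :
    CovM (curN G e : MatN N V) := by
  intro a b
  refine Matrix.ext fun i j => ?_
  rw [mul_EM, Matrix.map_apply]
  unfold curN
  rw [map_sub, Derivation.leibniz, Derivation.leibniz, rR_X, rR_X, rR_X, rR_X]
  simp only [one_smul, smul_eq_mul]
  split_ifs <;> ring

theorem covM_sum {N : ℕ} {V α : Type} [Fintype V] [DecidableEq V] {s : Finset α}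
    {J : α → MatN N V} (h : ∀ a ∈ s, CovM (J a)) : CovM (∑ a ∈ s, J a) := by
  intro a b
  rw [Finset.sum_mul, Finset.mul_sum, ← Finset.sum_sub_distrib]
  rw [← Finset.sum_congr rfl fun k hk => h k hk a b]
  refine Matrix.ext fun i j => ?_
  rw [Matrix.map_apply, Matrix.sum_apply, Matrix.sum_apply, map_sum]
  rfl

theorem covM_smul {N : ℕ} {V : Type} [Fintype V] [DecidableEq V] {J : MatN N V} (h : CovM J)
    (c : ℝ) : CovM (c • J) := by
  intro a b
  rw [Matrix.smul_mul, Matrix.mul_smul, ← smul_sub, ← h a b]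
  refine Matrix.ext fun i j => ?_
  rw [Matrix.map_apply, Matrix.smul_apply, Matrix.smul_apply, Matrix.map_apply,
    Derivation.map_smul]

theorem covM_ScN {N : ℕ} {V ι : Type} [Fintype V] [DecidableEq V] [Fintype ι] (G : Gr V ι)
    (β : ℝ) (b : V → ℝ) : CovM (ScN G β b : MatN N V) := by
  unfold ScN
  exact covM_sum fun e _ => covM_smul (covM_curN G e) _

/-! ## Support -/

theorem sup_curN {N : ℕ} {V ι : Type} {G : Gr V ι} {A : Set V} (e : ι) (hs : G.s e ∈ A)
    (ht : G.t e ∈ A) (i j : Fin N) :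
    curN G e i j ∈ MvPolynomial.supported ℝ {v : V × Fin N | v.1 ∈ A} := by
  have hX : ∀ (x : V) (_ : x ∈ A) (i : Fin N),
      (X (x, i) : AlgN N V) ∈ MvPolynomial.supported ℝ {v : V × Fin N | v.1 ∈ A} := by
    intro x hx i
    rw [MvPolynomial.X_mem_supported]
    exact hx
  unfold curN
  exact sub_mem (mul_mem (hX _ hs _) (hX _ ht _)) (mul_mem (hX _ hs _) (hX _ ht _))

theorem sup_S1N {N L : ℕ} [NeZero L] {ι : Type} [Fintype ι] {G : Gr (Tor L) ι} {β ρ K : ℝ}
    (hG : Nice G β ρ K) (hρ : 0 ≤ ρ) (y : Tor L) (i j : Fin N) :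
    SupN {x | tnorm (x - y) ≤ ρ} (S1N G β y i j) := by
  unfold SupN S1N
  rw [scN_apply]
  refine Subalgebra.sum_mem _ fun e _ => ?_
  by_cases h : G.s e = y ∨ G.t e = y
  · have h0 : tnorm (G.s e - y) ≤ 0 ∨ tnorm (G.t e - y) ≤ 0 := by
      rcases h with h | h
      · left
        rw [h, sub_self, tnorm_zero]
      · right
        rw [h, sub_self, tnorm_zero]
    have h1 := edge_nearJ hG e y 0 h0 hρ
    rw [zero_add] at h1
    exact Subalgebra.smul_mem _ (sup_curN e h1.1 h1.2 i j) _
  · push Not at h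
    have h1 : grad G (Pi.single y (1 : ℝ)) e = 0 := by
      unfold grad
      rw [Pi.single_eq_of_ne h.1, Pi.single_eq_of_ne h.2, sub_zero]
    rw [h1, mul_zero, zero_smul]
    exact zero_mem _

/-! ## Second moments -/

/-- the derivative of the current -/
def epsN {N : ℕ} {V ι : Type} (G : Gr V ι) (e : ι) (i j : Fin N) : AlgN N V :=
  if i = j then 0 else X (G.s e, i) * X (G.t e, i) + X (G.s e, j) * X (G.t e, j)

/-- the scalar product -/
def dotN {N : ℕ} {V ι : Type} (G : Gr V ι) (e : ι) : AlgN N V :=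
  ∑ k, X (G.s e, k) * X (G.t e, k)

theorem rR_curN {N : ℕ} {V ι : Type} [Fintype V] [DecidableEq V] (G : Gr V ι) (e : ι)
    (f : V → ℝ) (i j : Fin N) :
    RR f i j (curN G e i j) = grad G f e • epsN G e i j := by
  unfold epsN
  by_cases h : i = j
  · subst h
    rw [if_pos rfl, smul_zero]
    unfold curN
    rw [sub_self, map_zero]
  · rw [if_neg h]
    unfold curN grad
    rw [map_sub, Derivation.leibniz, Derivation.leibniz, rR_X, rR_X, rR_X, rR_X]
    simp only [if_neg h, if_neg (Ne.symm h), if_true, smul_eq_mul, smul_eq_C_mul, map_sub]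
    ring

theorem rR_ScN {N : ℕ} {V ι : Type} [Fintype V] [DecidableEq V] [Fintype ι] (G : Gr V ι)
    (β : ℝ) (f : V → ℝ) (i j : Fin N) :
    RR f i j (ScN G β f i j) = ∑ e, (β * grad G f e ^ 2) • epsN G e i j := by
  rw [scN_apply, map_sum]
  refine Finset.sum_congr rfl fun e _ => ?_
  rw [Derivation.map_smul, rR_curN, smul_smul]
  congr 1
  ring

theorem sum_epsN {N : ℕ} {V ι : Type} (G : Gr V ι) (e : ι) :
    ∑ i : Fin N, ∑ j : Fin N, epsN G e i j = (2 * ((N : ℝ) - 1)) • (dotN G e : AlgN N V) := by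
  unfold epsN dotN
  set x : Fin N → AlgN N V := fun k => X (G.s e, k) * X (G.t e, k) with hx
  have h1 : ∀ i j : Fin N, (if i = j then (0 : AlgN N V) else
      X (G.s e, i) * X (G.t e, i) + X (G.s e, j) * X (G.t e, j)) =
      (x i + x j) - (if i = j then x i + x j else 0) := by
    intro i j
    split_ifs with h
    · rw [sub_self]
    · rw [sub_zero]
  simp only [h1, Finset.sum_sub_distrib, Finset.sum_add_distrib, Finset.sum_ite_eq,
    Finset.mem_univ, if_true, Finset.sum_const, Finset.card_univ, Fintype.card_fin,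
    nsmul_eq_mul, ← Finset.mul_sum, smul_eq_C_mul, map_mul, map_sub, map_one, map_natCast,
    map_ofNat]
  ring

theorem dot_le {N : ℕ} {V ι : Type} (G : Gr V ι) (e : ι) (σ : V × Fin N → ℝ)
    (hσ : ∀ x, ∑ i, σ (x, i) ^ 2 ≤ 1) : eval σ (dotN G e : AlgN N V) ≤ 1 := by
  unfold dotN
  rw [map_sum]
  simp only [map_mul, eval_X]
  have h1 : ∀ k ∈ (Finset.univ : Finset (Fin N)), σ (G.s e, k) * σ (G.t e, k) ≤
      1 / 2 * σ (G.s e, k) ^ 2 + 1 / 2 * σ (G.t e, k) ^ 2 := by
    intro k _
    nlinarith [sq_nonneg (σ (G.s e, k) - σ (G.t e, k))]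
  refine (Finset.sum_le_sum h1).trans ?_
  rw [Finset.sum_add_distrib, ← Finset.mul_sum, ← Finset.mul_sum]
  linarith [hσ (G.s e), hσ (G.t e)]

theorem ibpR {N : ℕ} {V ι : Type} [Fintype V] [DecidableEq V] [Fintype ι] {G : Gr V ι} {β : ℝ}
    {Λ : Finset V} (W : WFunN N G β Λ) {b : V → ℝ} (hb : ∀ x, x ∉ Λ → b x = 0) (i j : Fin N)
    (F : AlgN N V) : W.E (RR b i j F) = W.E (ScN G β b i j * F) := by
  rw [rR_apply, ← jM_S1N G β b, JM, Matrix.sum_apply, Finset.sum_mul, map_sum, map_sum]
  refine Finset.sum_congr rfl (fun x _ => ?_)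
  rw [Matrix.smul_apply, smul_mul_assoc, map_smul, map_smul]
  by_cases hx : x ∈ Λ
  · rw [W.ibp x hx]
  · rw [hb x hx, zero_smul, zero_smul]

theorem scN_mom {N : ℕ} (hN : 3 ≤ N) {V ι : Type} [Fintype V] [DecidableEq V] [Fintype ι]
    {G : Gr V ι} {β : ℝ} {Λ : Finset V} (W : WFunN N G β Λ) (hβ : 0 ≤ β) {f : V → ℝ}
    (hfΛ : ∀ x, x ∉ Λ → f x = 0) {A : Set V} (hfA : ∀ x ∈ A, f x = 0) {H : AlgN N V}
    (hH : LocN A H) (hpos : NNN H) :
    ∑ i, ∑ j, W.E (ScN G β f i j ^ 2 * H) ≤ 2 * ((N : ℝ) - 1) * (β * En G f) * W.E H := by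
  have hN1 : (3 : ℝ) ≤ N := by exact_mod_cast hN
  have h1 : ∀ i j, W.E (ScN G β f i j ^ 2 * H) =
      ∑ e, (β * grad G f e ^ 2) * W.E (H * epsN G e i j) := by
    intro i j
    have h2 : W.E (ScN G β f i j ^ 2 * H) = W.E (RR f i j (ScN G β f i j * H)) := by
      rw [ibpR W hfΛ i j (ScN G β f i j * H)]
      congr 1
      ring
    rw [h2, Derivation.leibniz, rR_loc hH hfA, smul_zero, zero_add, rR_ScN, smul_eq_mul,
      Finset.mul_sum, map_sum]
    refine Finset.sum_congr rfl fun e _ => ?_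
    rw [mul_smul_comm, map_smul, smul_eq_mul]
  have h3 : ∑ i, ∑ j, W.E (ScN G β f i j ^ 2 * H) =
      ∑ e, (β * grad G f e ^ 2) * (2 * ((N : ℝ) - 1) * W.E (dotN G e * H)) := by
    calc ∑ i, ∑ j, W.E (ScN G β f i j ^ 2 * H)
        = ∑ i, ∑ j, ∑ e, (β * grad G f e ^ 2) * W.E (H * epsN G e i j) :=
          Finset.sum_congr rfl fun i _ => Finset.sum_congr rfl fun j _ => h1 i j
      _ = ∑ e, ∑ i, ∑ j, (β * grad G f e ^ 2) * W.E (H * epsN G e i j) := by
          rw [Finset.sum_comm (s := (Finset.univ : Finset ι))]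
          refine Finset.sum_congr rfl fun i _ => ?_
          rw [Finset.sum_comm]
      _ = _ := by
          refine Finset.sum_congr rfl fun e _ => ?_
          simp only [← Finset.mul_sum]
          congr 1
          have h4 : ∑ i : Fin N, ∑ j : Fin N, W.E (H * epsN G e i j) =
              W.E (H * ∑ i : Fin N, ∑ j : Fin N, epsN G e i j) := by
            simp only [Finset.mul_sum, map_sum]
          rw [h4, sum_epsN, mul_smul_comm, map_smul, smul_eq_mul, mul_comm H]
  have h5 : ∀ e, W.E (dotN G e * H) ≤ W.E H := by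
    intro e
    have h6 := W.pos ((1 - dotN G e) * H) (fun σ hσ => by
      rw [map_mul, map_sub, map_one]
      exact mul_nonneg (by linarith [dot_le G e σ hσ]) (hpos σ hσ))
    rw [sub_mul, one_mul, map_sub] at h6
    linarith
  rw [h3]
  have h7 : 2 * ((N : ℝ) - 1) * (β * En G f) * W.E H =
      ∑ e, (β * grad G f e ^ 2) * (2 * ((N : ℝ) - 1) * W.E H) := by
    unfold En
    rw [← Finset.sum_mul, ← Finset.mul_sum]
    ring
  rw [h7]
  refine Finset.sum_le_sum (fun e _ => ?_)
  refine mul_le_mul_of_nonneg_left (mul_le_mul_of_nonneg_left (h5 e) ?_) (by positivity)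
  linarith

/-- level zero -/
theorem zero : Pool.Agent.H970.RN.S_zero := by
  obtain ⟨K₁, hK₁, hE⟩ := energyJ
  refine ⟨108 * K₁, by positivity, ?_⟩
  intro N hN L _ ι _ G β ρ K hG hρ hK Λ W
  have hβ := hG.beta
  have hρ0 : 0 ≤ ρ := by linarith
  have hN1 : (3 : ℝ) ≤ N := by exact_mod_cast hN
  refine ⟨?_, ?_, ?_, ?_, ?_, ?_, ?_, ?_⟩
  · intro y i j
    exact scN_anti G β _ i j
  · have h1 := jM_S1N (N := N) G β (fun _ => (1 : ℝ))
    unfold JM at h1
    simp only [one_smul] at h1
    rw [h1]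
    unfold ScN grad
    refine Finset.sum_eq_zero fun e _ => ?_
    rw [sub_self, mul_zero, zero_smul]
  · intro i j
    unfold RR
    simp only [one_smul]
  · intro y
    exact covM_ScN G β (Pi.single y 1)
  · intro y i j
    exact sup_S1N hG hρ0 y i j
  · intro y i j F A hF hA
    refine hF y (fun hy => ?_) i j
    have h1 := hA y hy
    rw [sub_self, tnorm_zero] at h1
    linarith
  · intro y hy i j F
    refine W.ibp y (hy y ?_) i j F
    rw [sub_self, tnorm_zero]
    exact hρ0
  · intro r hr a hΛ s f hs hf hlip H hH hpos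
    have hr0 : 0 < r := by linarith
    have hfΛ : ∀ x, x ∉ Λ → f x = 0 := by
      intro x hx
      by_contra hc
      apply hx
      apply hΛ
      have := hf x hc
      linarith
    have hfA : ∀ x ∈ {x : Tor L | 2 * r < tnorm (x - a)}, f x = 0 := by
      intro x hx
      by_contra hc
      have h1 := hf x hc
      have h2 : 2 * r < tnorm (x - a) := hx
      linarith
    have hEH : 0 ≤ W.E H := W.pos H hpos
    rw [jM_S1N]
    refine (scN_mom hN W hβ hfΛ hfA hH hpos).trans ?_
    have h3 : β * En G f ≤ 9 * K₁ * K * s ^ 2 := by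
      refine (hE L G β ρ K hG hρ0 hK f a r (s / r) hr0.le (by positivity) hlip hf).trans ?_
      calc K₁ * K * (1 + r + ρ) ^ 2 * (s / r) ^ 2 ≤ K₁ * K * (3 * r) ^ 2 * (s / r) ^ 2 := by
            have : 1 + r + ρ ≤ 3 * r := by linarith
            gcongr
        _ = 9 * K₁ * K * s ^ 2 := by
            field_simp
            ring
    refine mul_le_mul_of_nonneg_right ?_ hEH
    have hN0 : (0 : ℝ) < N := by linarith
    have h4 : 18 * ((N : ℝ) - 1) ≤ 108 * (((N : ℝ) - 2) ^ 2 / N) := by
      rw [← mul_div_assoc, le_div_iff₀ hN0]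
      nlinarith [mul_nonneg (show (0 : ℝ) ≤ 5 * N - 8 by linarith)
        (show (0 : ℝ) ≤ N - 3 by linarith)]
    have h5 : 0 ≤ K₁ * K * s ^ 2 := by positivity
    calc 2 * ((N : ℝ) - 1) * (β * En G f) ≤ 2 * ((N : ℝ) - 1) * (9 * K₁ * K * s ^ 2) :=
          mul_le_mul_of_nonneg_left h3 (by linarith)
      _ = 18 * ((N : ℝ) - 1) * (K₁ * K * s ^ 2) := by ring
      _ ≤ 108 * (((N : ℝ) - 2) ^ 2 / N) * (K₁ * K * s ^ 2) :=
          mul_le_mul_of_nonneg_right h4 h5
      _ = s ^ 2 * (108 * K₁ * (K / N) * ((N : ℝ) - 2) ^ 2) := by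
          field_simp

end Pool.Agent.H996.RN
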